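import Pool.Agent.Y882.GX.Sm

/-!
# Every large even number is a prime of any given size plus an almost prime

Chen's theorem with a small prime (Cai 2014) has `p ≤ N ^ 0.941` and two prime factors. Here the
prime `p` may be as small as `N ^ θ` for any `θ > 0`, for EVERY large even number `N` and for all
positions of `p` between `N ^ θ` and `N / 2` at once; the number of prime factors is bounded by an
`r` slightly larger than `20 / (9 θ)`.
-/

set_option autoImplicit false

open Finset Filter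

namespace Pool.Agent.Results.MP_bae66e_nt.EveryEvenSmallPrime

/-- the variable part of the singular series of the Goldbach problem -/
noncomputable def sing (N : ℕ) : ℝ :=
  ∏ p ∈ N.primeFactors.erase 2, (((p : ℝ) - 1) / ((p : ℝ) - 2))

open Classical in
/-- The number of the primes `p < N` with `x / 4 < p < x` such that `N - p` has at most `r` prime
factors (counted with multiplicity), all of them at least `N ^ ζ / 2`. -/
noncomputable def window (r : ℕ) (ζ x : ℝ) (N : ℕ) : ℕ :=
  ((range N).filter (fun p : ℕ => p.Prime ∧ x / 4 < p ∧ (p : ℝ) < x ∧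
    (N - p).primeFactorsList.length ≤ r ∧
    ∀ q : ℕ, q.Prime → q ∣ (N - p) → (N : ℝ) ^ ζ / 2 ≤ q)).card

open Pool.Agent.Y882.GX in
open Classical in
/-- **Every even number, every scale.** Let `0 < θ ≤ 1`, `0 < τ < θ / 2` and
`10 / 9 < (r + 3 / 80) τ` (such a `τ` exists as soon as `r + 3 / 80 > 20 / (9 θ)`). There are
`δ > 0` and `N₀` such that every even `N ≥ N₀` and every real `x` with `N ^ θ ≤ x ≤ N / 2` has at
least `δ sing N x / (log N) ^ 2` primes `p` with `x / 4 < p < x` such that `N - p` has at most `r`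
prime factors, all of them at least `N ^ (τ / 4) / 2`. -/
theorem result (r : ℕ) (θ τ : ℝ) (hτ0 : 0 < τ) (hτθ : τ < θ / 2) (hθ1 : θ ≤ 1)
    (hr : 10 / 9 < (r + 3 / 80) * τ) :
    ∃ δ : ℝ, 0 < δ ∧ ∃ N₀ : ℕ, ∀ N : ℕ, N₀ ≤ N → Even N →
      ∀ x : ℝ, (N : ℝ) ^ θ ≤ x → x ≤ N / 2 →
        δ * sing N * (x / Real.log N ^ 2) ≤ (window r (τ / 4) x N : ℝ) := by
  have hθ0 : 0 < θ := by linarith
  have hJ := Pool.Agent.Y882.KW.cond_C τ (80 / 77) hτ0 (by norm_num) (by norm_num)
  obtain ⟨δ, hδ, Y0, H⟩ := ptw r θ τ (τ / 4) (9 / 10 * τ) (80 / 77) ((r + 3 / 80) * (9 / 10 * τ))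
    hθ0 hθ1 (by linarith) (by linarith) (by linarith) hτθ (by linarith) (by linarith)
    (by norm_num) hJ (by nlinarith) (by
      rw [mul_div_assoc, div_self (by positivity)]
      norm_num
      linarith)
  refine ⟨δ, hδ, 2 * (max Y0 3), fun N hN hev x hx1 hx2 => ?_⟩
  obtain ⟨Y, hYN⟩ := hev
  have hNY : N = 2 * Y := by omega
  have hYm : max Y0 3 ≤ Y := by omega
  have hY0 : Y0 ≤ Y := (le_max_left _ _).trans hYm
  have hY3 : 3 ≤ Y := (le_max_right _ _).trans hYm
  have hYr : (3 : ℝ) ≤ Y := by exact_mod_cast hY3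
  have hNr : (N : ℝ) = 2 * Y := by rw [hNY]; push_cast; ring
  have hxY : x ≤ Y := by rw [hNr] at hx2; linarith
  have hYx : (Y : ℝ) ^ θ ≤ x :=
    (Real.rpow_le_rpow (by positivity) (by rw [hNr]; linarith) hθ0.le).trans hx1
  have hx0 : 0 < x := lt_of_lt_of_le (Real.rpow_pos_of_pos (by linarith) _) hYx
  have hYN1 : Y < N := by omega
  have hYN2 : N ≤ 2 * Y := by omega
  have g1 := H Y hY0 x hYx hxY N hYN1 hYN2 ⟨Y, hYN⟩
  have h7 : ((Pool.Agent.Y882.GW.gp r x ((Y : ℝ) ^ (τ / 4)) N).card : ℝ) ≤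
      (window r (τ / 4) x N : ℝ) := by
    exact_mod_cast gp_le_inWindow r (τ / 4) x x (by linarith) (by linarith) Y N (by omega)
      hYN1 hYN2 le_rfl (by linarith) hxY
  refine le_trans ?_ (g1.trans h7)
  have hlY : 0 < Real.log Y := Real.log_pos (by linarith)
  have hs1 : 1 ≤ Pool.Agent.Y882.sgs N := Pool.Agent.Y882.one_le_sgs N
  have hl : Real.log Y ≤ Real.log N := Real.log_le_log (by linarith) (by rw [hNr]; linarith)
  have h15 : x / Real.log N ^ 2 ≤ x / Real.log Y ^ 2 :=
    div_le_div_of_nonneg_left hx0.le (by positivity) (pow_le_pow_left₀ hlY.le hl 2)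
  have e1 : sing N = Pool.Agent.Y882.sgs N := rfl
  rw [e1]
  calc δ * Pool.Agent.Y882.sgs N * (x / Real.log N ^ 2)
      ≤ δ * Pool.Agent.Y882.sgs N * (x / Real.log Y ^ 2) :=
        mul_le_mul_of_nonneg_left h15 (by positivity)
    _ = δ * x / Real.log Y ^ 2 * Pool.Agent.Y882.sgs N := by ring

end Pool.Agent.Results.MP_bae66e_nt.EveryEvenSmallPrime
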