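import Pool.Agent.V11290.FD.Win
import Pool.Agent.W93.GB1

/-!
# Small prime summands in Goldbach representations of all even numbers near `t α + s`, for almost every `α` of a set of
positive Fourier dimension

Let `μ` be ANY probability measure on a compact subset of `(0, ∞)` whose Fourier transform decays like some power, with an
arbitrarily small exponent `σ > 0`. (Such measures live on many sets of Lebesgue measure zero and of arbitrarily small
dimension: on the badly approximable numbers with bounded partial quotients (Kaufman), on the sets of `τ`-well approximable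
numbers (Kaufman), on limit sets of convex cocompact Fuchsian groups (Bourgain, Dyatlov), on random Salem sets, ...). For
almost every `α` ALL even integers `m` near `t j α + s j` are sums of two primes one of which is at most `m / log ^ A m`, and
the number of these small prime summands in short windows is as predicted.

Proof: the law of a random rounding of `t α` has a small characteristic function away from the integers (a Fourier
series with the coefficients `sinc²`), the theorem of the library W93.PG on windows (starting files) is applied to it,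
and then the lemma of Borel and Cantelli.

Definition used (in `Pool.Agent.H560R3.GB`): `sing m`: the singular series
`2 C₂ ∏_{p ∣ m, p > 2} (p - 1) / (p - 2)`, where `C₂ = ∏_{p > 2} (1 - 1 / (p - 1) ^ 2)`.
-/

set_option autoImplicit false

namespace Pool.Agent.Results.MP_bae66e_nt.FourierDecay

open Finset Pool.Agent.H560R3.GB MeasureTheory

/-- The number of primes `p` with `y₁ < p ≤ y₂` such that `m - p` is a prime. -/
def R (m y₁ y₂ : ℕ) : ℕ := ((Ioc y₁ y₂).filter (fun p => p.Prime ∧ (m - p).Prime)).card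

/-- (1) There is a prime `p ≤ m / log ^ A m` such that `m - p` is a prime (thus `g(m) ≤ m / log ^ A m`
in the notation of the problem); (2) in every window `(y₁, y₂]` of a length of at least `m / log ^ A m`
with `0 ≤ y₁ < y₂ ≤ m / log m` the number of primes `p` such that `m - p` is a prime agrees with
`sing m * (y₂ - y₁) / log ^ 2 m` up to a relative error of at most `ε`. -/
def Holds (ε : ℝ) (A m : ℕ) : Prop :=
  (∃ p : ℕ, p.Prime ∧ (m - p).Prime ∧ (p : ℝ) ≤ m / Real.log m ^ A) ∧
  ∀ y₁ y₂ : ℕ, y₁ < y₂ → (y₂ : ℝ) ≤ m / Real.log m → (m : ℝ) / Real.log m ^ A ≤ (y₂ : ℝ) - y₁ →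
    |(R m y₁ y₂ : ℝ) - sing m * ((y₂ : ℝ) - y₁) / Real.log m ^ 2| ≤ ε * (sing m * ((y₂ : ℝ) - y₁) / Real.log m ^ 2)

lemma of_win (A : ℕ) (ε : ℝ) : ∃ m₀ : ℕ, ∀ m : ℕ, m₀ ≤ m →
    Pool.Agent.W93.PG.WinP (min ε (1 / 2)) (A + 1) m → Holds ε A m := by
  obtain ⟨n1, h1⟩ := Pool.Agent.H373R2.T7.ev_L' 2
  obtain ⟨n2, h2⟩ := Pool.Agent.H373R2.T7.ev_log' (A + 1) 1
  refine ⟨n1 + n2 + 4, ?_⟩
  have hP : ∀ m : ℕ, n1 + n2 + 4 ≤ m → Pool.Agent.W93.PG.WinP (min ε (1 / 2)) (A + 1) m → Holds ε A m := by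
    intro m hm hwin
    have a1 := h1 m (by omega)
    have a2 := h2 m (by omega)
    have hm4 : (4 : ℝ) ≤ m := by exact_mod_cast (by omega : 4 ≤ m)
    have hm0 : (0 : ℝ) < m := by linarith
    rw [one_mul] at a2
    obtain ⟨M, hM⟩ : ∃ M, M = Real.log (m : ℝ) := ⟨_, rfl⟩
    have hs := Pool.Agent.W93.GB.one_le_sing m
    unfold Pool.Agent.W93.PG.WinP at hwin
    unfold Holds
    rw [← hM] at a1 a2 hwin ⊢
    have hM1 : 1 ≤ M := by linarith
    have hM0 : 0 < M := by linarith
    have hmm : √(m : ℝ) * √(m : ℝ) = m := Real.mul_self_sqrt hm0.le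
    have hsm0 : 0 < √(m : ℝ) := Real.sqrt_pos.2 hm0
    have hle : (m : ℝ) / M ^ (A + 1) ≤ m / M ^ A := by
      apply div_le_div_of_nonneg_left hm0.le (by positivity)
      exact pow_le_pow_right₀ hM1 (by omega)
    have hR : ∀ y₁ y₂, Pool.Agent.W93.PG.cnt m y₁ y₂ = R m y₁ y₂ := fun _ _ => rfl
    simp only [hR] at hwin
    have hsm : √(m : ℝ) ≤ m / M ^ (A + 1) := by
      rw [le_div_iff₀ (by positivity)]
      calc √(m : ℝ) * M ^ (A + 1) ≤ √(m : ℝ) * √(m : ℝ) := mul_le_mul_of_nonneg_left a2 hsm0.le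
        _ = m := hmm
    have hsm2 : 2 ≤ √(m : ℝ) := by
      apply Real.le_sqrt_of_sq_le
      linarith
    constructor
    · obtain ⟨y, hy⟩ : ∃ y, y = ⌈(m : ℝ) / M ^ (A + 1)⌉₊ := ⟨_, rfl⟩
      have hy1 : (m : ℝ) / M ^ (A + 1) ≤ y := by rw [hy]; exact Nat.le_ceil _
      have hy2 : (y : ℝ) ≤ m / M ^ (A + 1) + 1 := by rw [hy]; exact (Nat.ceil_lt_add_one (by positivity)).le
      have hy3 : (y : ℝ) ≤ m / M ^ A := by
        have e : (m : ℝ) / M ^ A = m / M ^ (A + 1) * M := by rw [pow_succ]; field_simp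
        have h5 : (m : ℝ) / M ^ (A + 1) * 2 ≤ m / M ^ (A + 1) * M := mul_le_mul_of_nonneg_left a1 (by positivity)
        rw [e]
        linarith
      have hy4 : y ≤ m := by
        have h5 : (m : ℝ) / M ^ A ≤ m := div_le_self hm0.le (one_le_pow₀ hM1)
        exact_mod_cast hy3.trans h5
      have hy0 : 0 < y := by
        have : (0 : ℝ) < y := by linarith
        exact_mod_cast this
      have hw := hwin 0 y hy0 hy4 (by push_cast; linarith)
      have hmain : 0 < sing m * ((y : ℝ) - (0 : ℕ)) / M ^ 2 := by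
        have : (0 : ℝ) < (y : ℝ) - (0 : ℕ) := by push_cast; linarith
        positivity
      have h6 : |(R m 0 y : ℝ) - sing m * ((y : ℝ) - (0 : ℕ)) / M ^ 2| ≤ 1 / 2 * (sing m * ((y : ℝ) - (0 : ℕ)) / M ^ 2) :=
        hw.trans (mul_le_mul_of_nonneg_right (min_le_right _ _) hmain.le)
      have h7 : (0 : ℝ) < R m 0 y := by
        rw [abs_le] at h6
        linarith [h6.1]
      have h8 : 0 < R m 0 y := by exact_mod_cast h7
      unfold R at h8
      rw [card_pos] at h8
      obtain ⟨p, hp⟩ := h8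
      rw [mem_filter, mem_Ioc] at hp
      have h9 : (p : ℝ) ≤ y := by exact_mod_cast hp.1.2
      exact ⟨p, hp.2.1, hp.2.2, h9.trans hy3⟩
    · intro y₁ y₂ h12 hy2 hΔ
      have hy2' : y₂ ≤ m := by
        have : (y₂ : ℝ) ≤ m := hy2.trans (div_le_self hm0.le hM1)
        exact_mod_cast this
      have hw := hwin y₁ y₂ h12 hy2' (hle.trans hΔ)
      refine hw.trans ?_
      apply mul_le_mul_of_nonneg_right (min_le_left _ _)
      have h5 : (0 : ℝ) ≤ (y₂ : ℝ) - y₁ := by
        have : (y₁ : ℝ) ≤ y₂ := by exact_mod_cast h12.le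
        linarith
      positivity
  exact hP

/-- Let `μ` be a probability measure on an interval `[a, B]`, `a > 0`, with `|μ^(ξ)| ≤ C |ξ| ^ (-σ)` for `|ξ| ≥ 1` and
some `C` and `σ > 0`. Let `t j ≥ 2` and `0 ≤ s j ≤ B t j` be real numbers, where `j` ranges over a set `J`, such that the
sum of the `1 / log ^ V (t j)` converges for some `V`. Then for `μ`-almost every `α`, for all `A`, `A'` and `ε > 0` and for all
but finitely many `j`, ALL the even natural numbers `m` with `|m - (t j α + s j)| ≤ log ^ A (t j)` satisfy `Holds ε A'`: there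
is a prime `p ≤ m / log ^ A' m` such that `m - p` is a prime, and in all windows of length at least `m / log ^ A' m` in
`(0, m / log m]` the number of such primes is as predicted, up to a relative error of at most `ε`. -/
theorem result (μ : Measure ℝ) [IsProbabilityMeasure μ] (a B : ℝ) (ha : 0 < a) (hμ : ∀ᵐ α ∂μ, a ≤ α ∧ α ≤ B)
    (C σ : ℝ) (hσ : 0 < σ) (hdec : ∀ ξ : ℝ, 1 ≤ |ξ| → ‖charFun μ ξ‖ ≤ C * |ξ| ^ (-σ))
    (J : Type) (t s : J → ℝ) (ht : ∀ j, 2 ≤ t j) (hs : ∀ j, 0 ≤ s j ∧ s j ≤ B * t j)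
    (hsum : ∃ V : ℕ, Summable fun j => 1 / Real.log (t j) ^ V) :
    ∀ᵐ α ∂μ, ∀ (A A' : ℕ) (ε : ℝ), 0 < ε →
      {j | ¬ ∀ m : ℕ, 2 ∣ m → |(m : ℝ) - (t j * α + s j)| ≤ Real.log (t j) ^ A → Holds ε A' m}.Finite := by
  obtain ⟨V, hV⟩ := hsum
  have h := Pool.Agent.V11290.FD.win_ae a B C σ ha hσ μ hdec hμ t s ht V hV hs
  filter_upwards [h, hμ] with α hα hαa A A' ε hε
  obtain ⟨m₀, hm₀⟩ := of_win A' ε
  obtain ⟨t₁, ht₁⟩ := Pool.Agent.V11290.FD.log_pow_le A (a / 2) (by positivity)
  have hsmall := Pool.Agent.V11290.FD.small_fin t ht V hV (max t₁ ((m₀ + 3) / (a / 2)))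
  refine ((hα A (A' + 1) (min ε (1 / 2)) (lt_min hε (by norm_num))).union hsmall).subset ?_
  intro j hj
  rw [Set.mem_ofPred_eq] at hj
  by_cases h3 : t j < max t₁ ((m₀ + 3) / (a / 2))
  · right
    exact h3
  left
  rw [not_lt] at h3
  have q1 : t₁ ≤ t j := (le_max_left _ _).trans h3
  have q2 : (m₀ + 3 : ℝ) ≤ a / 2 * t j := by
    have := (le_max_right _ _).trans h3
    rw [div_le_iff₀ (by positivity)] at this
    linarith
  rw [Set.mem_ofPred_eq]
  push Not at hj
  obtain ⟨m, hm2, hm3, hm4⟩ := hj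
  have h6 := (abs_le.1 hm3).1
  have h7 := ht₁ (t j) q1
  have h8 : a * t j ≤ t j * α := by
    rw [mul_comm]
    exact mul_le_mul_of_nonneg_left hαa.1 (by linarith [ht j])
  have h9 : (m₀ + 3 : ℝ) ≤ m := by linarith [(hs j).1]
  have h10 : m₀ + 3 ≤ m := by exact_mod_cast h9
  exact ⟨m, by omega, hm2, hm3, fun hc => hm4 (hm₀ m (by omega) hc)⟩

end Pool.Agent.Results.MP_bae66e_nt.FourierDecay
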