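import Pool.Agent.V11237.LP.GB

set_option autoImplicit false

/-!
# Every large even number is a small prime plus an almost prime: the number of the small primes and the
law after them

For every `θ > 0`, every large even `n`, every `X ≥ n ^ θ` and every interval `(u, u + Y] ⊂ [0, X]` with
`Y ≥ δ X`: the number of the primes `p ∈ (u, u + Y]` for which `n - p` has no prime factor
`≤ n ^ (1 / r)` is `(Y / log X) V / U` up to a factor `1 ± ε`, and over these primes the number of the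
`m` in `(p, p + T]` with `m` and `n - m` free of prime factors `≤ n ^ (1 / r)` is a Poisson variable of
mean `T V`.
-/

namespace Pool.Agent.Results.MP_bae66e_nt.SmallPrimesLaw

open Finset
open Pool.Agent.V11237.LP.GB

/-- **Small primes with almost prime complement.** -/
theorem result (θ δ : ℝ) (hθ : 0 < θ) (hδ : 0 < δ) (hδ1 : δ ≤ 1) (x₀ ε : ℝ) (hε : 0 < ε) (hε1 : ε ≤ 1) :
    ∃ r₀ : ℕ, 2 ≤ r₀ ∧ ∀ r : ℕ, r₀ ≤ r → ∃ n₀ : ℕ, ∀ n : ℕ, n₀ ≤ n → Even n →
      (∀ m : ℕ, m ≤ n → Good n r m → (n - m).primeFactorsList.length ≤ r) ∧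
      0 < V n r ∧
      ∀ X : ℕ, (n : ℝ) ^ θ ≤ X → ∀ u Y : ℕ, δ * X ≤ Y → u + Y ≤ X →
      |((P n r u Y).card : ℝ) * Real.log X - Y * (V n r / U n r)| ≤ ε * (Y * (V n r / U n r)) ∧
      ∀ T : ℕ, T * V n r ≤ x₀ → ∀ S : Finset ℕ,
        |(((P n r u Y).filter (fun m => Next n r T m ∈ S)).card : ℝ) -
          (P n r u Y).card * ∑ j ∈ S, Real.exp (-(T * V n r)) * (T * V n r) ^ j / j.factorial| ≤
          ε * (P n r u Y).card :=
  law θ δ hθ hδ hδ1 x₀ ε hε hε1

end Pool.Agent.Results.MP_bae66e_nt.SmallPrimesLaw
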